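import Pool.Agent.K7.H52.CF.Fin

/-!
# The Lindelöf hypothesis and the functions of Levinson and Conrey

For a polynomial `Q = ∑ q_j x^j` let `V_T(s) = Q(-D / log (T / 2π)) ζ(s) = ∑ q_j (-1 / log (T / 2π))^j ζ^(j)(s)`.
These are the functions whose zeros are studied in the method of Levinson (`Q = 1 - x`) and Conrey
(`Q(x) + Q(1 - x)` constant) near the height `T`.  We determine exactly when the zeros of `V_T` off the critical line
detect the Lindelöf hypothesis.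

Put `Q*(x) = conj Q(1 - conj x)`, so that the roots of `Q*` are the reflections of the roots of `Q` in the line
`Re x = 1/2`, and let `G` be a greatest common divisor of `Q` and `Q*`.

* (large values force zeros; unconditional) Let `κ > 0`.  There are `δ, η > 0` and `W` such that for all large `T` with
  `|G(-D / log (T / 2π)) ζ(1/2 + iT)| ≥ T^κ` the function `V_T` has at least `η log T` zeros `s` with
  `Re s ≥ 1/2 + δ`, `|Im s - T| ≤ W` (if `Q(0) ≠ 0`) and at least `η log T` zeros with `-1 ≤ Re s ≤ 1/2 - δ`,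
  `|Im s - T| ≤ W` (if `Q(1) ≠ 0`).
* (exact criterion) `V_T` has `o(log T)` zeros with `Re s ≥ 1/2 + δ` near height `T`, for every `δ > 0`, if and only if
  `G(-D / log (T / 2π)) ζ(1/2 + it) = O(T^ε)` near height `T`; similarly to the left.
* (Lindelöf hypothesis) If no two roots of `Q`, equal or not, are symmetric with respect to the line `Re x = 1/2`,
  then `G = 1` and each condition is equivalent to the Lindelöf hypothesis.  This applies to `Q = 1 - x`, to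
  `Q = x - ρ` with `Re ρ ≠ 1/2` and to all real `Q` with `Q(x) + Q(1 - x)` a constant that is not zero.

Proof.  Let `ℓ = log (T / 2π)`, `s₀` a point of the line near height `T` and `f(s) = e^((ℓ/2)(s - s₀)) ζ(s)`.  By Stirling's
formula and the functional equation the reflection `conj f(1 - conj s)` is `θ f(s)` with an error `O(T^(-1/4))` near `s₀`,
where `|θ| = 1`, while `e^((ℓ/2)(s - s₀)) V_T(s) = P(-D/ℓ) f(s)` with `P(x) = Q(x + 1/2)`.  So if `V_T` is small in a disc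
around `s₀`, then `P(-D/ℓ) f` and, by reflection, `P*(-D/ℓ) f` are small, `P*(x) = conj P(-conj x)`; by the identity of
Bezout `G(-D/ℓ) ζ(s₀)` is small.  Smallness of `V_T` in a disc of small fixed radius around `s₀` follows from smallness for
`Re s ≥ 1/2 + δ` by the theorem of three lines, and the latter follows from few zeros by Backlund's method.  To the left
one works with `V_T(w) e^(ℓ w)`, whose absolute value at `w` is, up to `O(T^(-1/4))`, that of the function of `Q*` at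
`1 - conj w`.
-/

set_option autoImplicit false

namespace Pool.Agent.Results.MP_4e5e8a_nt.ConreyOperators

open Polynomial

/-- `Q(-D / log (T / 2π)) ζ` -/
noncomputable def V (Q : Polynomial ℂ) (T : ℝ) (s : ℂ) : ℂ :=
  Q.sum fun j q => q * (-1 / (Real.log (T / (2 * Real.pi)) : ℂ)) ^ j * iteratedDeriv j riemannZeta s

/-- the polynomial `conj Q(1 - conj x)` -/
noncomputable def refl (Q : Polynomial ℂ) : Polynomial ℂ := (Q.map (starRingEnd ℂ)).comp (1 - X)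

/-- number of the zeros of `f` in the finite set `S`, with multiplicities -/
noncomputable def count (f : ℂ → ℂ) (S : Finset ℂ) : ℝ := ∑ s ∈ S, (analyticOrderNatAt f s : ℝ)

/-- the Lindelöf hypothesis -/
def Lindelof : Prop := ∀ ε : ℝ, 0 < ε → ∃ C : ℝ, ∀ t : ℝ,
  ‖riemannZeta (1 / 2 + t * Complex.I)‖ ≤ C * (1 + |t|) ^ ε

/-- `o(log T)` zeros of `V Q T` to the right of the line `Re s = 1/2 + δ` near height `T`, for every `δ > 0` -/
def FewRight (Q : Polynomial ℂ) : Prop := ∀ δ ε W : ℝ, 0 < δ → 0 < ε → ∃ T₀ : ℝ, ∀ T : ℝ, T₀ ≤ T →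
  ∀ S : Finset ℂ, (∀ s ∈ S, 1 / 2 + δ ≤ s.re ∧ |s.im - T| ≤ W) → count (V Q T) S ≤ ε * Real.log T

/-- `o(log T)` zeros of `V Q T` in the strip `-1 ≤ Re s ≤ 1/2 - δ` near height `T`, for every `δ > 0` -/
def FewLeft (Q : Polynomial ℂ) : Prop := ∀ δ ε W : ℝ, 0 < δ → 0 < ε → ∃ T₀ : ℝ, ∀ T : ℝ, T₀ ≤ T →
  ∀ S : Finset ℂ, (∀ s ∈ S, -1 ≤ s.re ∧ s.re ≤ 1 / 2 - δ ∧ |s.im - T| ≤ W) → count (V Q T) S ≤ ε * Real.log T

/-- `V G T (1/2 + it) = O(T^ε)` near height `T`, for every `ε > 0` -/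
def SmallOnLine (G : Polynomial ℂ) : Prop := ∀ ε W : ℝ, 0 < ε → ∃ T₀ : ℝ, ∀ T : ℝ, T₀ ≤ T → ∀ t : ℝ,
  |t - T| ≤ W → ‖V G T (1 / 2 + t * Complex.I)‖ ≤ T ^ ε

lemma V_eq (Q : Polynomial ℂ) (T : ℝ) : V Q T = Pool.Agent.K7.H52.CF.VV Q T := by
  funext s
  unfold V Pool.Agent.K7.H52.CF.VV Pool.Agent.K7.H52.CF.pd
  refine Finset.sum_congr rfl fun j _ => ?_
  have : ((Pool.Agent.K7.H52.CF.cc T : ℝ) : ℂ) = -1 / (Real.log (T / (2 * Real.pi)) : ℂ) := by
    unfold Pool.Agent.K7.H52.CF.cc Pool.Agent.K7.H52.CF.ell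
    push_cast
    ring
  simp only [this]
  ring

lemma count_eq (Q : Polynomial ℂ) (T : ℝ) (S : Finset ℂ) :
    count (V Q T) S = ∑ s ∈ S, (H370.mult (Pool.Agent.K7.H52.CF.VV Q T) s : ℝ) := by
  rw [V_eq]
  rfl

lemma count_filter (Q : Polynomial ℂ) {T W : ℝ} (hT : W < T) (S : Finset ℂ) (hS : ∀ s ∈ S, |s.im - T| ≤ W) :
    ∃ S' : Finset ℂ, (∀ s ∈ S', s ∈ S ∧ V Q T s = 0) ∧ count (V Q T) S' = count (V Q T) S := by
  classical
  refine ⟨S.filter fun s => V Q T s = 0, fun s hs => by rwa [Finset.mem_filter] at hs, ?_⟩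
  unfold count
  rw [Finset.sum_filter]
  refine Finset.sum_congr rfl fun s hs => ?_
  by_cases h : V Q T s = 0
  · rw [if_pos h]
  · rw [if_neg h]
    have h1 := abs_le.1 (hS s hs)
    have h2 : AnalyticAt ℂ (V Q T) s := by
      rw [V_eq]
      exact Pool.Agent.K7.H52.CF.VV_an Q T s (by linarith)
    have : analyticOrderNatAt (V Q T) s = 0 := Pool.Agent.K7.H52.SP.mult_zero h2 h
    rw [this]
    simp

lemma small_iff (G : Polynomial ℂ) : SmallOnLine G ↔ Pool.Agent.K7.H52.CF.SL G := by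
  constructor
  · intro H ε W hε hW
    obtain ⟨T₀, hT₀⟩ := H ε W hε
    refine ⟨max T₀ 1, fun T hT s hs1 hs2 => ?_⟩
    have h := hT₀ T ((le_max_left _ _).trans hT) s.im hs2
    have e : (1 / 2 + (s.im : ℂ) * Complex.I) = s := by
      apply Complex.ext <;> simp [hs1]
    rw [e, V_eq] at h
    rw [Pool.Agent.K7.H52.SP.exp_mul_log (by linarith [(le_max_right T₀ 1).trans hT])]
    exact h
  · intro H ε W hε
    rcases lt_or_ge W 0 with hW | hW
    · refine ⟨0, fun T _ t ht => ?_⟩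
      have := abs_nonneg (t - T)
      linarith
    · obtain ⟨T₀, hT₀⟩ := H ε W hε hW
      refine ⟨max T₀ 1, fun T hT t ht => ?_⟩
      have h := hT₀ T ((le_max_left _ _).trans hT) (1 / 2 + t * Complex.I) (by simp) (by simpa using ht)
      rw [Pool.Agent.K7.H52.SP.exp_mul_log (by linarith [(le_max_right T₀ 1).trans hT])] at h
      rw [V_eq]
      exact h

lemma right_iff (Q : Polynomial ℂ) : FewRight Q ↔ Pool.Agent.K7.H52.CF.FR Q := by
  unfold FewRight Pool.Agent.K7.H52.CF.FR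
  simp only [count_eq]

lemma left_iff (Q : Polynomial ℂ) : FewLeft Q ↔ Pool.Agent.K7.H52.CF.FL Q := by
  unfold FewLeft Pool.Agent.K7.H52.CF.FL
  simp only [count_eq]

lemma coeff_right {Q : Polynomial ℂ} (h : Q.eval 0 ≠ 0) : Q.coeff 0 ≠ 0 := by
  rwa [Polynomial.coeff_zero_eq_eval_zero]

lemma coeff_left {Q : Polynomial ℂ} (h : Q.eval 1 ≠ 0) : (Pool.Agent.K7.H52.CF.qt Q).coeff 0 ≠ 0 := by
  rw [Polynomial.coeff_zero_eq_eval_zero]
  unfold Pool.Agent.K7.H52.CF.qt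
  rw [Polynomial.eval_comp]
  simp only [Polynomial.eval_sub, Polynomial.eval_one, Polynomial.eval_X, sub_zero]
  have := Polynomial.eval_map_apply (f := starRingEnd ℂ) (p := Q) 1
  rw [map_one] at this
  rw [this]
  simpa using h

lemma coprime_of_roots {Q : Polynomial ℂ} (h : ∀ ρ : ℂ, Q.eval ρ = 0 → Q.eval (1 - (starRingEnd ℂ) ρ) ≠ 0) :
    IsCoprime Q (refl Q) := by
  rw [Polynomial.isCoprime_iff_aeval_ne_zero_of_isAlgClosed ℂ ℂ]
  intro a
  by_cases ha : Q.eval a = 0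
  · right
    have h1 := h a ha
    unfold refl
    rw [Polynomial.coe_aeval_eq_eval, Polynomial.eval_comp]
    simp only [Polynomial.eval_sub, Polynomial.eval_one, Polynomial.eval_X]
    have h2 := Polynomial.eval_map_apply (f := starRingEnd ℂ) (p := Q) (1 - (starRingEnd ℂ) a)
    rw [map_sub, map_one, Complex.conj_conj] at h2
    rw [h2]
    simpa using h1
  · left
    rwa [Polynomial.coe_aeval_eq_eval]

theorem criterion {Q G : Polynomial ℂ} (h1 : G ∣ Q) (h2 : G ∣ refl Q) (h3 : ∃ A B : Polynomial ℂ, A * Q + B * refl Q = G) :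
    (Q.eval 0 ≠ 0 → (FewRight Q ↔ SmallOnLine G)) ∧ (Q.eval 1 ≠ 0 → (FewLeft Q ↔ SmallOnLine G)) := by
  obtain ⟨A, B, hAB⟩ := h3
  rw [small_iff, right_iff, left_iff]
  constructor
  · intro hQ
    obtain ⟨R, hR⟩ := h1
    rw [mul_comm] at hR
    refine ⟨Pool.Agent.K7.H52.CF.SL_of_FR hAB (coeff_right hQ), fun H => ?_⟩
    have h := Pool.Agent.K7.H52.CF.FR_of_SL (R := R) H (by rw [← hR]; exact coeff_right hQ)
    rwa [← hR] at h
  · intro hQ
    obtain ⟨R, hR⟩ := h2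
    rw [mul_comm] at hR
    exact ⟨Pool.Agent.K7.H52.CF.SL_of_FL hAB (coeff_left hQ), fun H =>
      Pool.Agent.K7.H52.CF.FL_of_SL H hR (coeff_left hQ)⟩

theorem result :
    -- large values force zeros on both sides of the critical line
    (∀ Q G : Polynomial ℂ, (∃ A B : Polynomial ℂ, A * Q + B * refl Q = G) → ∀ κ : ℝ, 0 < κ →
      ∃ δ η W T₀ : ℝ, 0 < δ ∧ 0 < η ∧ ∀ T : ℝ, T₀ ≤ T → T ^ κ ≤ ‖V G T (1 / 2 + T * Complex.I)‖ →
        (Q.eval 0 ≠ 0 → ∃ S : Finset ℂ, (∀ s ∈ S, V Q T s = 0 ∧ 1 / 2 + δ ≤ s.re ∧ |s.im - T| ≤ W) ∧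
          η * Real.log T ≤ count (V Q T) S) ∧
        (Q.eval 1 ≠ 0 → ∃ S : Finset ℂ, (∀ s ∈ S, V Q T s = 0 ∧ -1 ≤ s.re ∧ s.re ≤ 1 / 2 - δ ∧ |s.im - T| ≤ W) ∧
          η * Real.log T ≤ count (V Q T) S)) ∧
    -- the exact criterion: `G` a greatest common divisor of `Q` and `refl Q`
    (∀ Q G : Polynomial ℂ, G ∣ Q → G ∣ refl Q → (∃ A B : Polynomial ℂ, A * Q + B * refl Q = G) →
      (Q.eval 0 ≠ 0 → (FewRight Q ↔ SmallOnLine G)) ∧ (Q.eval 1 ≠ 0 → (FewLeft Q ↔ SmallOnLine G))) ∧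
    -- the Lindelöf hypothesis, if no two roots are symmetric with respect to `Re = 1/2`
    (∀ Q : Polynomial ℂ, (∀ ρ : ℂ, Q.eval ρ = 0 → Q.eval (1 - (starRingEnd ℂ) ρ) ≠ 0) →
      (Q.eval 0 ≠ 0 → (Lindelof ↔ FewRight Q)) ∧ (Q.eval 1 ≠ 0 → (Lindelof ↔ FewLeft Q)) ∧
      (∀ κ : ℝ, 0 < κ → ∃ δ η W T₀ : ℝ, 0 < δ ∧ 0 < η ∧ ∀ T : ℝ, T₀ ≤ T →
        T ^ κ ≤ ‖riemannZeta (1 / 2 + T * Complex.I)‖ →
          (Q.eval 0 ≠ 0 → ∃ S : Finset ℂ, (∀ s ∈ S, V Q T s = 0 ∧ 1 / 2 + δ ≤ s.re ∧ |s.im - T| ≤ W) ∧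
            η * Real.log T ≤ count (V Q T) S) ∧
          (Q.eval 1 ≠ 0 → ∃ S : Finset ℂ, (∀ s ∈ S, V Q T s = 0 ∧ -1 ≤ s.re ∧ s.re ≤ 1 / 2 - δ ∧ |s.im - T| ≤ W) ∧
            η * Real.log T ≤ count (V Q T) S))) := by
  have hlaw : ∀ Q G : Polynomial ℂ, (∃ A B : Polynomial ℂ, A * Q + B * refl Q = G) → ∀ κ : ℝ, 0 < κ →
      ∃ δ η W T₀ : ℝ, 0 < δ ∧ 0 < η ∧ ∀ T : ℝ, T₀ ≤ T → T ^ κ ≤ ‖V G T (1 / 2 + T * Complex.I)‖ →
        (Q.eval 0 ≠ 0 → ∃ S : Finset ℂ, (∀ s ∈ S, V Q T s = 0 ∧ 1 / 2 + δ ≤ s.re ∧ |s.im - T| ≤ W) ∧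
          η * Real.log T ≤ count (V Q T) S) ∧
        (Q.eval 1 ≠ 0 → ∃ S : Finset ℂ, (∀ s ∈ S, V Q T s = 0 ∧ -1 ≤ s.re ∧ s.re ≤ 1 / 2 - δ ∧ |s.im - T| ≤ W) ∧
          η * Real.log T ≤ count (V Q T) S) := by
    rintro Q G ⟨A, B, hAB⟩ κ hκ
    have hr : Q.eval 0 ≠ 0 → ∃ δ η W T₀ : ℝ, 0 < δ ∧ 0 < η ∧ ∀ T : ℝ, T₀ ≤ T →
        T ^ κ ≤ ‖V G T (1 / 2 + T * Complex.I)‖ →
        ∃ S : Finset ℂ, (∀ s ∈ S, V Q T s = 0 ∧ 1 / 2 + δ ≤ s.re ∧ |s.im - T| ≤ W) ∧
          η * Real.log T ≤ count (V Q T) S := by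
      intro hQ
      obtain ⟨δ, η, W, T₁, a1, a2, a3, a4, h⟩ := Pool.Agent.K7.H52.CF.small_right (κ := κ / 2) (W₀ := 0) hAB
        (coeff_right hQ) (by positivity) le_rfl
      refine ⟨δ, η, W, T₁ + W + 1, a1, a2, fun T hT hbig => ?_⟩
      have hTpos : 1 < T := by linarith
      have hL0 : 0 < Real.log T := Real.log_pos hTpos
      by_contra hcon
      push Not at hcon
      have h2 := h T (by linarith) (fun S hS => by
        obtain ⟨S', b1, b2⟩ := count_filter Q (W := W) (by linarith) S (fun s hs => (hS s hs).2)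
        rw [← count_eq, ← b2]
        exact (hcon S' fun s hs => ⟨(b1 s hs).2, hS s (b1 s hs).1⟩).le) (1 / 2 + T * Complex.I) (by simp) (by simp)
      rw [← V_eq] at h2
      have h3 : Real.exp (κ / 2 * Real.log T) < T ^ κ := by
        rw [← Pool.Agent.K7.H52.SP.exp_mul_log (by linarith)]
        refine Real.exp_lt_exp.2 (mul_lt_mul_of_pos_right ?_ hL0)
        linarith
      linarith
    have hl : Q.eval 1 ≠ 0 → ∃ δ η W T₀ : ℝ, 0 < δ ∧ 0 < η ∧ ∀ T : ℝ, T₀ ≤ T →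
        T ^ κ ≤ ‖V G T (1 / 2 + T * Complex.I)‖ →
        ∃ S : Finset ℂ, (∀ s ∈ S, V Q T s = 0 ∧ -1 ≤ s.re ∧ s.re ≤ 1 / 2 - δ ∧ |s.im - T| ≤ W) ∧
          η * Real.log T ≤ count (V Q T) S := by
      intro hQ
      obtain ⟨δ, η, W, T₁, a1, a2, a3, a4, h⟩ := Pool.Agent.K7.H52.CF.small_left (κ := κ / 2) (W₀ := 0) hAB
        (coeff_left hQ) (by positivity) le_rfl
      refine ⟨δ, η, W, T₁ + W + 1, a1, a2, fun T hT hbig => ?_⟩
      have hTpos : 1 < T := by linarith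
      have hL0 : 0 < Real.log T := Real.log_pos hTpos
      by_contra hcon
      push Not at hcon
      have h2 := h T (by linarith) (fun S hS => by
        obtain ⟨S', b1, b2⟩ := count_filter Q (W := W) (by linarith) S (fun s hs => (hS s hs).2.2)
        rw [← count_eq, ← b2]
        exact (hcon S' fun s hs => ⟨(b1 s hs).2, hS s (b1 s hs).1⟩).le) (1 / 2 + T * Complex.I) (by simp) (by simp)
      rw [← V_eq] at h2
      have h3 : Real.exp (κ / 2 * Real.log T) < T ^ κ := by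
        rw [← Pool.Agent.K7.H52.SP.exp_mul_log (by linarith)]
        refine Real.exp_lt_exp.2 (mul_lt_mul_of_pos_right ?_ hL0)
        linarith
      linarith
    by_cases h0 : Q.eval 0 = 0
    · by_cases h1 : Q.eval 1 = 0
      · exact ⟨1, 1, 0, 0, one_pos, one_pos, fun T _ _ => ⟨fun h => absurd h0 h, fun h => absurd h1 h⟩⟩
      · obtain ⟨δ, η, W, T₀, a1, a2, h⟩ := hl h1
        exact ⟨δ, η, W, T₀, a1, a2, fun T hT hbig => ⟨fun h => absurd h0 h, fun _ => h T hT hbig⟩⟩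
    · obtain ⟨δ₁, η₁, W₁, T₁, a1, a2, h⟩ := hr h0
      by_cases h1 : Q.eval 1 = 0
      · exact ⟨δ₁, η₁, W₁, T₁, a1, a2, fun T hT hbig => ⟨fun _ => h T hT hbig, fun h => absurd h1 h⟩⟩
      · obtain ⟨δ₂, η₂, W₂, T₂, b1, b2, h'⟩ := hl h1
        refine ⟨min δ₁ δ₂, min η₁ η₂, max W₁ W₂, max (max T₁ T₂) 1, lt_min a1 b1, lt_min a2 b2,
          fun T hT hbig => ?_⟩
        have hL0 : 0 ≤ Real.log T := Real.log_nonneg ((le_max_right _ _).trans hT)
        have hTa : T₁ ≤ T := ((le_max_left _ _).trans (le_max_left _ _)).trans hT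
        have hTb : T₂ ≤ T := ((le_max_right _ _).trans (le_max_left _ _)).trans hT
        refine ⟨fun _ => ?_, fun _ => ?_⟩
        · obtain ⟨S, c1, c2⟩ := h T hTa hbig
          refine ⟨S, fun s hs => ?_, le_trans ?_ c2⟩
          · obtain ⟨d1, d2, d3⟩ := c1 s hs
            have := min_le_left δ₁ δ₂
            exact ⟨d1, by linarith, d3.trans (le_max_left _ _)⟩
          · have := min_le_left η₁ η₂
            gcongr
        · obtain ⟨S, c1, c2⟩ := h' T hTb hbig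
          refine ⟨S, fun s hs => ?_, le_trans ?_ c2⟩
          · obtain ⟨d1, d2, d3, d4⟩ := c1 s hs
            have := min_le_right δ₁ δ₂
            exact ⟨d1, d2, by linarith, d4.trans (le_max_right _ _)⟩
          · have := min_le_right η₁ η₂
            gcongr
  refine ⟨hlaw, fun Q G h1 h2 h3 => criterion h1 h2 h3, fun Q hroots => ?_⟩
  obtain ⟨A, B, hAB⟩ := coprime_of_roots hroots
  have hone : SmallOnLine 1 ↔ Lindelof := by
    rw [small_iff]
    exact Pool.Agent.K7.H52.CF.SL_one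
  obtain ⟨k1, k2⟩ := criterion (Q := Q) (G := 1) (one_dvd _) (one_dvd _) ⟨A, B, hAB⟩
  refine ⟨fun hQ => by rw [← hone]; exact (k1 hQ).symm, fun hQ => by rw [← hone]; exact (k2 hQ).symm, ?_⟩
  intro κ hκ
  obtain ⟨δ, η, W, T₀, a1, a2, h⟩ := hlaw Q 1 ⟨A, B, hAB⟩ κ hκ
  refine ⟨δ, η, W, T₀, a1, a2, fun T hT hbig => h T hT ?_⟩
  have : V 1 T (1 / 2 + T * Complex.I) = riemannZeta (1 / 2 + T * Complex.I) := by
    rw [V_eq]
    unfold Pool.Agent.K7.H52.CF.VV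
    rw [Pool.Agent.K7.H52.CF.pd_one]
  rw [this]
  exact hbig

end Pool.Agent.Results.MP_4e5e8a_nt.ConreyOperators
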