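import Pool.Agent.K7.H52.DL.Fin

/-!
# The Lindelöf hypothesis and the ring generated by the dilates of zeta

For a polynomial `P = ∑ a_k X^k`, `λ > 0` and real `h` put `u(t) = (P(D) ζ)(1/2 + i(λ t + h)) = ∑ a_k ζ^(k)(1/2 + i(λ t + h))`.

* (sums, exact exponents) Let `λ_0 > 0`, let `λ_1, …, λ_m > λ_0` be arbitrary, `h_j` real, `P_0 ≠ 0` and `P_1, …, P_m`
  arbitrary. For every `κ ≥ 0` the bound `ζ(1/2 + it) = O(t^(κ + ε))` (for all `ε > 0`) is equivalent to the bound
  `∑_j (P_j(D) ζ)(1/2 + i(λ_j t + h_j)) = O(t^(κ + ε))`. So sums of dilates of zeta have no cancellation in the exponent;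
  the Lindelöf hypothesis holds if and only if `ζ(1/2 + it) + ζ(1/2 + 2it) = O(t^ε)`.
* (polynomials) Let `λ_1, …, λ_m > 0` be distinct, `h_j` real, `P_j ≠ 0` and `u_j(t) = (P_j(D) ζ)(1/2 + i(λ_j t + h_j))`. Let `Q` be ANY
  polynomial in `m` variables with complex coefficients for which `F = Q(u_1, …, u_m)` is not a constant function. Then the
  Lindelöf hypothesis holds if and only if `F(t) = O(t^ε)` for all `ε > 0`. Examples: `ζ(1/2 + it)^2 - ζ(1/2 + 2it)`,
  `ζ(1/2 + it) ζ'(1/2 + √2 it) + ζ(1/2 + 3it)`.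
* (coefficients) The coefficients of `Q` may be trigonometric polynomials `∑ c e^(iωt)` (for instance Dirichlet
  polynomials on the critical line), if then `F` is not itself a trigonometric polynomial.

Proof. Let `F` be small on the line. By the theorem of Phragmen and Lindelöf the corresponding function of `z = it` is small
for `Re z ≥ 0`. Suppose that `ζ(σ + it) = O(t^ε)` is known for `σ > 1/2 + y` (`y = 1/2` to begin with), and let `λ_1` be the
smallest dilation, `q λ_1` the second one. For `Re z > y / (q λ_1)` all the factors but `u_1` are small, and `F = 0` is an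
equation for `u_1` with small coefficients; so the product of `u_1` and the leading coefficient `a` is small. As `a` is
not zero it is bounded below by a constant on vertical lines far to the right (it has asymptotic expansions in
exponentials; the theorem of Carlson's type for functions of superexponential decay), and by Jensen's formula the product, hence
`u_1`, has `o(log T)` zeros there near height `T`. By the theorem of Speiser's type of `Pool.Agent.K7.H52.SP` this gives
`ζ(σ + it) = O(t^ε)` for `σ > 1/2 + y/q`. Iterating, `y → 0`. If the leading coefficient vanishes identically the degree is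
lowered, and if `F` does not depend on `u_1` the number of dilates. For sums no zeros are needed: `u_1` is the
difference of `F` and of terms known to be small, and `P(D) ζ = u` can be solved from the right; the exponents at
`1/2 + y` are kept below `κ max(1 - 2y, 0)`.
-/

set_option autoImplicit false

namespace Pool.Agent.Results.MP_4e5e8a_nt.Dilates

/-- The Lindelöf hypothesis. -/
def Lindelof : Prop := ∀ ε : ℝ, 0 < ε → ∃ C : ℝ, ∀ t : ℝ,
  ‖riemannZeta (1 / 2 + t * Complex.I)‖ ≤ C * (1 + |t|) ^ ε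

/-- `f(t) = O(t^(κ + ε))` for every `ε > 0`. -/
def Growth (κ : ℝ) (f : ℝ → ℂ) : Prop := ∀ ε : ℝ, 0 < ε → ∃ C : ℝ, ∀ t : ℝ, 1 ≤ t → ‖f t‖ ≤ C * t ^ (κ + ε)

/-- `(P(D) ζ)(1/2 + i(lam t + h))`, that is `∑ a_k ζ^(k)(1/2 + i(lam t + h))` for `P = ∑ a_k X^k`. -/
noncomputable def u (P : Polynomial ℂ) (lam h t : ℝ) : ℂ :=
  P.sum fun k a => a * iteratedDeriv k riemannZeta (1 / 2 + (lam * t + h : ℝ) * Complex.I)

/-- `f` is a trigonometric polynomial. -/
def IsTrig (f : ℝ → ℂ) : Prop := ∃ (n : ℕ) (c : Fin n → ℂ) (ω : Fin n → ℝ), ∀ t : ℝ,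
  f t = ∑ i, c i * Complex.exp (ω i * t * Complex.I)

theorem result :
    -- sums of dilates, for every exponent
    (∀ (m : ℕ) (P : Fin (m + 1) → Polynomial ℂ) (lam h : Fin (m + 1) → ℝ), 0 < lam 0 → (∀ j, j ≠ 0 → lam 0 < lam j) →
      P 0 ≠ 0 → ∀ κ : ℝ, 0 ≤ κ → (Growth κ (fun t : ℝ => riemannZeta (1 / 2 + t * Complex.I)) ↔
        Growth κ fun t => ∑ j, u (P j) (lam j) (h j) t)) ∧
    -- polynomials in dilates
    (∀ (m : ℕ) (P : Fin m → Polynomial ℂ) (lam h : Fin m → ℝ), (∀ j, P j ≠ 0) → (∀ j, 0 < lam j) →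
      Function.Injective lam → ∀ Q : MvPolynomial (Fin m) ℂ,
        (∃ t₁ t₂ : ℝ, MvPolynomial.eval (fun j => u (P j) (lam j) (h j) t₁) Q ≠
          MvPolynomial.eval (fun j => u (P j) (lam j) (h j) t₂) Q) →
        (Lindelof ↔ Growth 0 fun t => MvPolynomial.eval (fun j => u (P j) (lam j) (h j) t) Q)) ∧
    -- coefficients which are trigonometric polynomials
    (∀ (m n : ℕ) (P : Fin m → Polynomial ℂ) (lam h : Fin m → ℝ), (∀ j, P j ≠ 0) → (∀ j, 0 < lam j) →
      Function.Injective lam → ∀ (c : Fin n → ℂ) (ω : Fin n → ℝ) (k : Fin n → Fin m → ℕ),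
        ¬ IsTrig (fun t : ℝ => ∑ i, c i * Complex.exp (ω i * t * Complex.I) * ∏ j, u (P j) (lam j) (h j) t ^ k i j) →
        (Lindelof ↔ Growth 0 fun t : ℝ =>
          ∑ i, c i * Complex.exp (ω i * t * Complex.I) * ∏ j, u (P j) (lam j) (h j) t ^ k i j)) := by
  have hu : ∀ (P : Polynomial ℂ) (lam h t : ℝ), Pool.Agent.K7.H52.DL.uu P lam h (t * Complex.I) = u P lam h t := by
    intro P lam h t
    unfold Pool.Agent.K7.H52.DL.uu Pool.Agent.K7.H52.SP.DD u
    have : ((lam : ℂ) * (t * Complex.I) + (1 / 2 + h * Complex.I)) = 1 / 2 + (lam * t + h : ℝ) * Complex.I := by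
      push_cast
      ring
    rw [this]
  have hS : ∀ f : ℝ → ℂ, Pool.Agent.K7.H52.DL.Sml f ↔ Growth 0 f := by
    intro f
    unfold Pool.Agent.K7.H52.DL.Sml Growth
    simp only [zero_add]
  refine ⟨?_, ?_, ?_⟩
  · intro m P lam h h0 hlt hP κ hκ
    have h1 := Pool.Agent.K7.H52.DL.lin_main (P := P) (h := h) h0 (fun j => hlt _ (Fin.succ_ne_zero j)) hP hκ
    refine h1.trans ?_
    unfold Growth Pool.Agent.K7.H52.DL.FL
    simp only [hu]
  · intro m P lam h hP hlam hinj Q hnc
    have h1 := Pool.Agent.K7.H52.DL.alg_const (h := h) hP hlam hinj (Q := Q) (by simpa only [hu] using hnc)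
    rw [hS] at h1
    simp only [hu] at h1
    exact h1
  · intro m n P lam h hP hlam hinj c ω k hnt
    have e : Pool.Agent.K7.H52.DL.FS P lam h c ω k = fun t : ℝ =>
        ∑ i, c i * Complex.exp (ω i * t * Complex.I) * ∏ j, u (P j) (lam j) (h j) t ^ k i j := by
      funext t
      unfold Pool.Agent.K7.H52.DL.FS
      simp only [hu]
    have h1 := Pool.Agent.K7.H52.DL.alg_exp (h := h) hP hlam hinj (c := c) (ω := ω) (k := k) (fun ht => by
      obtain ⟨n', c', ω', h'⟩ := ht.fin
      refine hnt ⟨n', c', ω', fun t => ?_⟩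
      rw [← h' t, e])
    rw [hS, e] at h1
    exact h1

end Pool.Agent.Results.MP_4e5e8a_nt.Dilates
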