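import Pool.Agent.K7.H52.NM.Crit

/-!
# Large values of zeta cannot be mollified: products, Dirichlet polynomials and the Lindelöf hypothesis

Write `Z t = |ζ(1/2 + it)|`.

* (law, unconditional) Let `κ > 0` and `A ≥ 2`. There are `η, W > 0` such that for all large `T` with `Z T ≥ T^κ` and
  for every function `G` which is analytic for `1/2 ≤ Re s ≤ 2A`, of size at most `exp (A log T + A |Im s - T|)`
  there, at most `T^η` for `Re s ≥ A`, `|Im s - T| ≤ W` and at least `T^(-η)` for `Re s = A`, `|Im s - T| ≤ W`, the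
  integral of `log⁺ |ζ G|` over the segment `1/2 + i[T - W, T + W]` exceeds `η log T`. So a large value of zeta cannot be
  cancelled by any factor: not even the mean of the positive part of the logarithm can be made `o(log T)` on
  intervals of bounded length, although near `T` the factor may depend on `T` in any way.
* (Dirichlet polynomials) This holds for all `G(s) = ∑_{n ≤ N} a_n n^(-s)` with `a_1 = 1`, `|a_n| ≤ n^B`, `N ≤ T^B`.
* (other values of zeta) It holds for `G(1/2 + i(T + u)) = ∏_j |ζ(1/2 + i(y_j + λ_j u))|` with fixed `λ_j > 0` and ARBITRARY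
  heights `|y_j| ≤ T^B`: a large value at `T` cannot be compensated by small values near any other heights.
* (criterion, mollified means) Let `p > 0`. The Lindelöf hypothesis holds if and only if there is `B` such that for
  all `ε, W > 0` and all large `T` there is such a Dirichlet polynomial `M`, depending on `T`, for which the
  integral of `|ζ M|^p` over `1/2 + i[T - W, T + W]` is at most `T^ε`.
* (criterion, products) Let `λ_j > 0` and `h_j` be real, `0 ≤ j ≤ m`. The Lindelöf hypothesis holds if and only if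
  `∏_j Z(λ_j t + h_j) = O(t^ε)` for every `ε > 0`.
* (criterion, multiples) Let `G` be analytic and of polynomial growth for `Re s ≥ 1/2`, bounded and bounded away
  from `0` for `Re s ≥ X`. If `ζ G = O(t^ε)` on the critical line then the Lindelöf hypothesis holds.

Proof. Suppose the integral is at most `η log T`. Poisson's integral for the subharmonic function `log⁺ |ζ G|`, in discs
tangent to the line and repeated with halved distances, gives `|ζ G| ≤ T^ε` at distance `x` from the line. As `|ζ G|` is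
not small for `Re s = A`, Jensen's formula bounds the number of its zeros, hence of the zeros of `ζ`, with
`Re s ≥ 1/2 + x` by `ε' log T`. By the law of `Pool.Agent.K7.H52.SP.Main` (a local form of Backlund's theorem) large
values of zeta on the line force more zeros than that.
-/

set_option autoImplicit false

open MeasureTheory Real

namespace Pool.Agent.Results.MP_4e5e8a_nt.NoCancellation

/-- The modulus of the zeta function on the critical line. -/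
noncomputable def Z (t : ℝ) : ℝ := ‖riemannZeta (1 / 2 + t * Complex.I)‖

/-- The Lindelöf hypothesis. -/
def Lindelof : Prop := ∀ ε : ℝ, 0 < ε → ∃ C : ℝ, ∀ t : ℝ, Z t ≤ C * (1 + |t|) ^ ε

/-- The modulus of a Dirichlet polynomial on the critical line. -/
noncomputable def M (a : ℕ → ℂ) (N : ℕ) (t : ℝ) : ℝ :=
  ‖∑ n ∈ Finset.Icc 1 N, a n * (n : ℂ) ^ (-((1 / 2 : ℂ) + t * Complex.I))‖

/-- The coefficients and the length of the admissible Dirichlet polynomials at height `T`. -/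
def Adm (B T : ℝ) (a : ℕ → ℂ) (N : ℕ) : Prop :=
  a 1 = 1 ∧ 1 ≤ N ∧ (∀ n : ℕ, 1 ≤ n → ‖a n‖ ≤ (n : ℝ) ^ B) ∧ (N : ℝ) ≤ T ^ B

theorem result :
    -- the law for general factors
    (∀ κ A : ℝ, 0 < κ → 2 ≤ A → ∃ η W T₀ : ℝ, 0 < η ∧ 0 < W ∧ ∀ T : ℝ, T₀ ≤ T → T ^ κ ≤ Z T →
      ∀ G : ℂ → ℂ,
        (∀ s : ℂ, 1 / 2 ≤ s.re → s.re ≤ 2 * A → AnalyticAt ℂ G s) →
        (∀ s : ℂ, 1 / 2 ≤ s.re → s.re ≤ 2 * A → ‖G s‖ ≤ Real.exp (A * Real.log T + A * |s.im - T|)) →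
        (∀ s : ℂ, A ≤ s.re → s.re ≤ 2 * A → |s.im - T| ≤ W → ‖G s‖ ≤ T ^ η) →
        (∀ s : ℂ, s.re = A → |s.im - T| ≤ W → T ^ (-η) ≤ ‖G s‖) →
        η * Real.log T < ∫ u in (T - W)..(T + W),
          log⁺ ‖riemannZeta (1 / 2 + u * Complex.I) * G (1 / 2 + u * Complex.I)‖) ∧
    -- the law for Dirichlet polynomials
    (∀ κ B : ℝ, 0 < κ → 0 ≤ B → ∃ η W T₀ : ℝ, 0 < η ∧ 0 < W ∧ ∀ T : ℝ, T₀ ≤ T → T ^ κ ≤ Z T →
      ∀ (a : ℕ → ℂ) (N : ℕ), Adm B T a N →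
        η * Real.log T < ∫ u in (T - W)..(T + W), log⁺ (Z u * M a N u)) ∧
    -- the law for other values of zeta
    (∀ κ B : ℝ, 0 < κ → 0 ≤ B → ∀ (m : ℕ) (lam : Fin m → ℝ), (∀ j, 0 < lam j) →
      ∃ η W T₀ : ℝ, 0 < η ∧ 0 < W ∧ ∀ T : ℝ, T₀ ≤ T → T ^ κ ≤ Z T →
        ∀ y : Fin m → ℝ, (∀ j, |y j| ≤ T ^ B) →
          η * Real.log T < ∫ u in (-W)..W, log⁺ (Z (T + u) * ∏ j, Z (y j + lam j * u))) ∧
    -- the criterion by mollified means of order `p`
    (∀ p : ℝ, 0 < p → (Lindelof ↔ ∃ B : ℝ, 0 ≤ B ∧ ∀ ε W : ℝ, 0 < ε → 0 < W → ∃ T₀ : ℝ, ∀ T : ℝ,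
      T₀ ≤ T → ∃ (a : ℕ → ℂ) (N : ℕ), Adm B T a N ∧
        ∫ u in (T - W)..(T + W), (Z u * M a N u) ^ p ≤ T ^ ε)) ∧
    -- the criterion by products
    (∀ (m : ℕ) (lam h : Fin (m + 1) → ℝ), (∀ j, 0 < lam j) →
      (Lindelof ↔ ∀ ε : ℝ, 0 < ε → ∃ C : ℝ, ∀ t : ℝ, 1 ≤ t → ∏ j, Z (lam j * t + h j) ≤ C * t ^ ε)) ∧
    -- the criterion by multiples
    (∀ G : ℂ → ℂ, (∀ s : ℂ, 1 / 2 ≤ s.re → AnalyticAt ℂ G s) →
      (∃ K : ℝ, ∀ s : ℂ, 1 / 2 ≤ s.re → ‖G s‖ ≤ K * (1 + ‖s‖) ^ K) →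
      (∃ X K c : ℝ, 0 < c ∧ ∀ s : ℂ, X ≤ s.re → c ≤ ‖G s‖ ∧ ‖G s‖ ≤ K) →
      (∀ ε : ℝ, 0 < ε → ∃ C : ℝ, ∀ t : ℝ, 1 ≤ t →
        ‖riemannZeta (1 / 2 + t * Complex.I) * G (1 / 2 + t * Complex.I)‖ ≤ C * t ^ ε) → Lindelof) := by
  refine ⟨?_, ?_, ?_, ?_, ?_, ?_⟩
  · intro κ A hκ hA
    obtain ⟨η, W, T₀, h1, h2, h3, h⟩ := Pool.Agent.K7.H52.NM.no_cancel_zl hκ hA
    refine ⟨η, W, T₀, h1, h2, fun T hT hbig G han hgr hrt hlo => ?_⟩
    have hT0 : 0 < T := by linarith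
    refine h T hT hbig G ⟨han, hgr, fun s a b c => ?_, fun s a b => ?_⟩
    · rw [Pool.Agent.K7.H52.SP.exp_mul_log hT0]
      exact hrt s a b c
    · rw [← neg_mul, Pool.Agent.K7.H52.SP.exp_mul_log hT0]
      exact hlo s a b
  · intro κ B hκ hB
    obtain ⟨η, W, T₀, h1, h2, _, h⟩ := Pool.Agent.K7.H52.NM.law_moll hκ hB
    exact ⟨η, W, T₀, h1, h2, fun T hT hbig a N ha => h T hT hbig a N ha.1 ha.2.1 ha.2.2.1 ha.2.2.2⟩
  · intro κ B hκ hB m lam hlam
    obtain ⟨η, W, T₀, h1, h2, _, h⟩ := Pool.Agent.K7.H52.NM.no_cancel_prod hκ hlam B hB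
    exact ⟨η, W, T₀, h1, h2, h⟩
  · intro p hp
    refine (Pool.Agent.K7.H52.NM.moll_crit hp).trans ⟨?_, ?_⟩
    · rintro ⟨B, hB, H⟩
      refine ⟨B, hB, fun ε W hε hW => ?_⟩
      obtain ⟨T₀, hT₀⟩ := H ε W hε hW
      refine ⟨T₀, fun T hT => ?_⟩
      obtain ⟨a, N, e1, e2, e3, e4, e5⟩ := hT₀ T hT
      exact ⟨a, N, ⟨e1, e2, e3, e4⟩, e5⟩
    · rintro ⟨B, hB, H⟩
      refine ⟨B, hB, fun ε W hε hW => ?_⟩
      obtain ⟨T₀, hT₀⟩ := H ε W hε hW
      refine ⟨T₀, fun T hT => ?_⟩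
      obtain ⟨a, N, ⟨e1, e2, e3, e4⟩, e5⟩ := hT₀ T hT
      exact ⟨a, N, e1, e2, e3, e4, e5⟩
  · intro m lam h hlam
    exact Pool.Agent.K7.H52.NM.prod_crit hlam
  · rintro G han ⟨K, hK⟩ ⟨X, K', c, hc, hX⟩ H
    refine Pool.Agent.K7.H52.NM.mult_crit (K := max |K| |K'|) han (fun s hs => ?_) (X := X) hc
      (fun s hs => (hX s hs).2.trans ((le_abs_self _).trans (le_max_right _ _)))
      (fun s hs => (hX s hs).1) H
    have h1 : 1 ≤ 1 + ‖s‖ := by have := norm_nonneg s; linarith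
    have h2 : K ≤ max |K| |K'| := (le_abs_self _).trans (le_max_left _ _)
    have h3 : (0 : ℝ) ≤ max |K| |K'| := (abs_nonneg K).trans (le_max_left _ _)
    calc ‖G s‖ ≤ K * (1 + ‖s‖) ^ K := hK s hs
      _ ≤ max |K| |K'| * (1 + ‖s‖) ^ K := by gcongr
      _ ≤ _ := by gcongr

end Pool.Agent.Results.MP_4e5e8a_nt.NoCancellation
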