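import Pool.Agent.K7.H52.SP.Poly

/-!
# A theorem of Speiser type for the Lindelöf hypothesis

Speiser: the Riemann hypothesis holds if and only if the derivative of zeta has no zeros in the left half
of the critical strip.  Backlund: the Lindelöf hypothesis holds if and only if zeta has `o(log T)` zeros `s` with
`Re s ≥ 1/2 + δ`, `|Im s - T| ≤ 1`, for every `δ > 0`.  We prove the corresponding theorem for zeta replaced by
`P(D) ζ = ∑ a_j ζ^(j)`, where `P = ∑ a_j X^j` is any polynomial that is not zero (for instance `P = X^k`, the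
derivatives of zeta), and for both sides of the critical line.

* (large values force zeros of `P(D) ζ` on both sides; unconditional) Let `P ≠ 0`, `1/2 ≤ θ < 1` and `κ > 0`.
  There are `δ, η > 0` and `W` such that, for all large `T` with `|ζ(θ + iT)| ≥ T^κ`, the function `P(D) ζ` has at
  least `η log T` zeros `s` with `Re s ≤ 1 - θ - δ`, `|Im s - T| ≤ W`, and also at least `η log T` zeros with
  `Re s ≥ θ + δ`, `|Im s - T| ≤ W` (counted with multiplicities).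
* (exact criterion) For `P ≠ 0` and `1/2 ≤ θ < 1` the following are equivalent: (i) `ζ(σ + it) = O(t^ε)` for all
  `σ > θ` and `ε > 0`; (ii) for every `δ > 0` there are `o(log T)` zeros of `P(D) ζ` with `Re s ≤ 1 - θ - δ`,
  `|Im s - T| ≤ 1`; (iii) for every `δ > 0` there are `o(log T)` zeros of `P(D) ζ` with `Re s ≥ θ + δ`,
  `|Im s - T| ≤ 1`.
* (Lindelöf hypothesis) For `θ = 1/2` the three conditions are equivalent to the Lindelöf hypothesis.
* (growth) Each of the conditions with `θ` implies `ζ(1/2 + it) = O(t^((θ - 1/2) / 2 + ε))`.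

Proof.  Write `F = P(D) ζ`.  Left of the critical strip `F / ζ` has the size of a power of the logarithm, by the
functional equation and induction over the linear factors of `P`.  If `F` has few zeros with `Re s ≤ 1 - θ - δ`
near height `T`, the method of Backlund (Jensen, Borel-Caratheodory and Hadamard's three circles, applied to
`F(s) T^(s - 1/2)` with centre `-1 + iT`) gives `|F(s)| ≤ T^(1/2 - σ + ε)` for `σ ≤ 1 - θ - 2δ`.  The three lines
theorem carries the bound `T^(θ - 1/2 + 2δ + ε)` to the right, and as the differential equation `P(D) ζ = F` can be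
solved along horizontal lines from the right, where zeta is bounded, this bound holds for `ζ` as well.  The
functional equation gives `|ζ(σ + iT)| ≤ T^ε` for `σ = θ + 2δ`.
-/

set_option autoImplicit false

open Filter Topology

namespace Pool.Agent.Results.MP_4e5e8a_nt.SpeiserCriterion

/-- `P(D) ζ`: the polynomial `P` in the derivative, applied to zeta -/
noncomputable def D (P : Polynomial ℂ) (s : ℂ) : ℂ :=
  P.sum fun j a => a * iteratedDeriv j riemannZeta s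

/-- number of the zeros of `f` in the finite set `S`, with multiplicities -/
noncomputable def count (f : ℂ → ℂ) (S : Finset ℂ) : ℝ := ∑ s ∈ S, (analyticOrderNatAt f s : ℝ)

/-- the Lindelöf hypothesis -/
def Lindelof : Prop := ∀ ε : ℝ, 0 < ε → ∃ C : ℝ, ∀ t : ℝ,
  ‖riemannZeta (1 / 2 + t * Complex.I)‖ ≤ C * (1 + |t|) ^ ε

/-- `ζ(σ + it) = O(t^ε)` for all `σ > θ` and `ε > 0` -/
def Small (θ : ℝ) : Prop := ∀ σ : ℝ, θ < σ → ∀ ε : ℝ, 0 < ε → ∃ C : ℝ, ∀ t : ℝ, 1 ≤ t →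
  ‖riemannZeta (σ + t * Complex.I)‖ ≤ C * t ^ ε

/-- `P(D) ζ` has `o(log T)` zeros `s` with `Re s ≤ 1 - θ - δ`, `|Im s - T| ≤ 1`, for every `δ > 0` -/
def FewLeft (P : Polynomial ℂ) (θ : ℝ) : Prop := ∀ δ ε : ℝ, 0 < δ → 0 < ε → ∃ T₀ : ℝ, ∀ T : ℝ, T₀ ≤ T →
  ∀ S : Finset ℂ, (∀ s ∈ S, s.re ≤ 1 - θ - δ ∧ |s.im - T| ≤ 1) → count (D P) S ≤ ε * Real.log T

/-- `P(D) ζ` has `o(log T)` zeros `s` with `Re s ≥ θ + δ`, `|Im s - T| ≤ 1`, for every `δ > 0` -/
def FewRight (P : Polynomial ℂ) (θ : ℝ) : Prop := ∀ δ ε : ℝ, 0 < δ → 0 < ε → ∃ T₀ : ℝ, ∀ T : ℝ, T₀ ≤ T →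
  ∀ S : Finset ℂ, (∀ s ∈ S, θ + δ ≤ s.re ∧ |s.im - T| ≤ 1) → count (D P) S ≤ ε * Real.log T

lemma count_eq {P : Polynomial ℂ} {l : List ℂ} {c : ℂ} (hc : c ≠ 0)
    (h : ∀ s : ℂ, s ≠ 1 → Pool.Agent.K7.H52.SP.DD P s = c * Pool.Agent.K7.H52.SP.op l s)
    {S : Finset ℂ} (hS : ∀ s ∈ S, s ≠ 1) :
    count (D P) S = ∑ s ∈ S, (H370.mult (Pool.Agent.K7.H52.SP.op l) s : ℝ) := by
  unfold count
  refine Finset.sum_congr rfl fun s hs => ?_
  rw [← Pool.Agent.K7.H52.SP.DD_mult hc h (hS s hs)]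
  rfl

lemma ne_one_of {s : ℂ} {T W : ℝ} (h : |s.im - T| ≤ W) (hT : W + 1 ≤ T) : s ≠ 1 := by
  apply Pool.Agent.K7.H52.SP.ne_one_of_im'
  have := abs_le.1 h
  linarith

lemma small_iff {θ : ℝ} (hθ : 1 / 2 ≤ θ) (hθ1 : θ < 1) :
    Small θ ↔ Pool.Agent.K7.H52.SP.SmallZ θ :=
  ⟨fun H σ h1 _ ε hε => H σ h1 ε hε,
    fun H _ hσ _ hε => Pool.Agent.K7.H52.SP.small_all hθ hθ1 H hσ hε⟩

lemma fewL_iff {P : Polynomial ℂ} {l : List ℂ} {c : ℂ} (hc : c ≠ 0)
    (h : ∀ s : ℂ, s ≠ 1 → Pool.Agent.K7.H52.SP.DD P s = c * Pool.Agent.K7.H52.SP.op l s) (θ : ℝ) :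
    FewLeft P θ ↔ Pool.Agent.K7.H52.SP.FewL l θ := by
  constructor
  · intro H δ ε hδ hε
    obtain ⟨T₀, hT₀⟩ := H δ ε hδ hε
    refine ⟨max T₀ 2, fun T hT S hS => ?_⟩
    rw [← count_eq hc h fun s hs => ne_one_of (hS s hs).2
      (by linarith [(le_max_right T₀ 2).trans hT])]
    exact hT₀ T ((le_max_left _ _).trans hT) S hS
  · intro H δ ε hδ hε
    obtain ⟨T₀, hT₀⟩ := H δ ε hδ hε
    refine ⟨max T₀ 2, fun T hT S hS => ?_⟩
    rw [count_eq hc h fun s hs => ne_one_of (hS s hs).2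
      (by linarith [(le_max_right T₀ 2).trans hT])]
    exact hT₀ T ((le_max_left _ _).trans hT) S hS

lemma fewR_iff {P : Polynomial ℂ} {l : List ℂ} {c : ℂ} (hc : c ≠ 0)
    (h : ∀ s : ℂ, s ≠ 1 → Pool.Agent.K7.H52.SP.DD P s = c * Pool.Agent.K7.H52.SP.op l s) (θ : ℝ) :
    FewRight P θ ↔ Pool.Agent.K7.H52.SP.FewR l θ := by
  constructor
  · intro H δ ε hδ hε
    obtain ⟨T₀, hT₀⟩ := H δ ε hδ hε
    refine ⟨max T₀ 2, fun T hT S hS => ?_⟩
    rw [← count_eq hc h fun s hs => ne_one_of (hS s hs).2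
      (by linarith [(le_max_right T₀ 2).trans hT])]
    exact hT₀ T ((le_max_left _ _).trans hT) S hS
  · intro H δ ε hδ hε
    obtain ⟨T₀, hT₀⟩ := H δ ε hδ hε
    refine ⟨max T₀ 2, fun T hT S hS => ?_⟩
    rw [count_eq hc h fun s hs => ne_one_of (hS s hs).2
      (by linarith [(le_max_right T₀ 2).trans hT])]
    exact hT₀ T ((le_max_left _ _).trans hT) S hS

theorem criterion {P : Polynomial ℂ} (hP : P ≠ 0) {θ : ℝ} (hθ : 1 / 2 ≤ θ) (hθ1 : θ < 1) :
    (Small θ ↔ FewLeft P θ) ∧ (Small θ ↔ FewRight P θ) := by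
  obtain ⟨l, c, hc, h⟩ := Pool.Agent.K7.H52.SP.DD_op hP
  rw [fewL_iff hc h, fewR_iff hc h, small_iff hθ hθ1]
  exact ⟨⟨Pool.Agent.K7.H52.SP.fewL_of_small l hθ hθ1, Pool.Agent.K7.H52.SP.small_of_fewL l hθ⟩,
    ⟨Pool.Agent.K7.H52.SP.fewR_of_small l hθ hθ1, Pool.Agent.K7.H52.SP.small_of_fewR l hθ⟩⟩

theorem lindelof_iff : Lindelof ↔ Small (1 / 2) := by
  rw [small_iff le_rfl (by norm_num)]
  exact Pool.Agent.K7.H52.SP.LH_iff

theorem result :
    -- large values force zeros of `P(D) ζ` on both sides of the critical line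
    (∀ P : Polynomial ℂ, P ≠ 0 → ∀ θ κ : ℝ, 1 / 2 ≤ θ → θ < 1 → 0 < κ →
      ∃ δ η W T₀ : ℝ, 0 < δ ∧ 0 < η ∧ ∀ T : ℝ, T₀ ≤ T →
        T ^ κ ≤ ‖riemannZeta (θ + T * Complex.I)‖ →
          (∃ S : Finset ℂ, (∀ s ∈ S, D P s = 0 ∧ s.re ≤ 1 - θ - δ ∧ |s.im - T| ≤ W) ∧
            η * Real.log T ≤ count (D P) S) ∧
          (∃ S : Finset ℂ, (∀ s ∈ S, D P s = 0 ∧ θ + δ ≤ s.re ∧ |s.im - T| ≤ W) ∧
            η * Real.log T ≤ count (D P) S)) ∧
    -- the exact criterion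
    (∀ P : Polynomial ℂ, P ≠ 0 → ∀ θ : ℝ, 1 / 2 ≤ θ → θ < 1 →
      (Small θ ↔ FewLeft P θ) ∧ (Small θ ↔ FewRight P θ)) ∧
    -- the Lindelöf hypothesis
    (∀ P : Polynomial ℂ, P ≠ 0 →
      (Lindelof ↔ FewLeft P (1 / 2)) ∧ (Lindelof ↔ FewRight P (1 / 2))) ∧
    -- growth on the critical line
    (∀ P : Polynomial ℂ, P ≠ 0 → ∀ θ : ℝ, 1 / 2 ≤ θ → θ < 1 → (FewLeft P θ ∨ FewRight P θ) →
      ∀ ε : ℝ, 0 < ε → ∃ C : ℝ, ∀ t : ℝ,
        ‖riemannZeta (1 / 2 + t * Complex.I)‖ ≤ C * (1 + |t|) ^ ((θ - 1 / 2) / 2 + ε)) := by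
  classical
  refine ⟨?_, fun P hP θ hθ hθ1 => criterion hP hθ hθ1, ?_, ?_⟩
  · intro P hP θ κ hθ hθ1 hκ
    obtain ⟨l, c, hc, h⟩ := Pool.Agent.K7.H52.SP.DD_op hP
    obtain ⟨δ₁, η₁, W₁, T₁, a1, a2, a3, a4, h1⟩ := Pool.Agent.K7.H52.SP.law_left l hθ hθ1 hκ
    obtain ⟨δ₂, η₂, W₂, T₂, b1, b2, b3, b4, h2⟩ := Pool.Agent.K7.H52.SP.law_right l hθ hθ1 hκ
    refine ⟨min δ₁ δ₂, min η₁ η₂, max W₁ W₂, max (max T₁ T₂) (max W₁ W₂ + 1), lt_min a1 b1,
      lt_min a2 b2, ?_⟩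
    intro T hT hbig
    have hTa : T₁ ≤ T := ((le_max_left _ _).trans (le_max_left _ _)).trans hT
    have hTb : T₂ ≤ T := ((le_max_right _ _).trans (le_max_left _ _)).trans hT
    have hTc : max W₁ W₂ + 1 ≤ T := (le_max_right _ _).trans hT
    have hL0 : 0 < Real.log T := Real.log_pos (by linarith)
    -- the restriction to the zeros
    have restr : ∀ (S : Finset ℂ) (W : ℝ), W ≤ max W₁ W₂ → (∀ s ∈ S, |s.im - T| ≤ W) →
        count (D P) (S.filter fun s => D P s = 0) =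
          ∑ s ∈ S, (H370.mult (Pool.Agent.K7.H52.SP.op l) s : ℝ) := by
      intro S W hW hS
      rw [← count_eq hc h fun s hs => ne_one_of (hS s hs) (by linarith)]
      unfold count
      rw [Finset.sum_filter]
      refine Finset.sum_congr rfl fun s hs => ?_
      by_cases h0 : D P s = 0
      · rw [if_pos h0]
      · rw [if_neg h0]
        have hne : s ≠ 1 := ne_one_of (hS s hs) (by linarith)
        have : analyticOrderNatAt (D P) s = 0 :=
          Pool.Agent.K7.H52.SP.mult_zero (Pool.Agent.K7.H52.SP.DD_an P hne) h0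
        rw [this]
        simp
    constructor
    · obtain ⟨S, hS1, hS2⟩ := h1 T hTa (θ + T * Complex.I) (by simp) (by simp) hbig
      refine ⟨S.filter fun s => D P s = 0, ?_, ?_⟩
      · intro s hs
        rw [Finset.mem_filter] at hs
        obtain ⟨c1, c2⟩ := hS1 s hs.1
        refine ⟨hs.2, ?_, c2.trans (le_max_left _ _)⟩
        have := min_le_left δ₁ δ₂
        linarith
      · rw [restr S W₁ (le_max_left _ _) (fun s hs => (hS1 s hs).2)]
        have := min_le_left η₁ η₂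
        nlinarith
    · obtain ⟨S, hS1, hS2⟩ := h2 T hTb (θ + T * Complex.I) (by simp) (by simp) hbig
      refine ⟨S.filter fun s => D P s = 0, ?_, ?_⟩
      · intro s hs
        rw [Finset.mem_filter] at hs
        obtain ⟨c1, c2⟩ := hS1 s hs.1
        refine ⟨hs.2, ?_, c2.trans (le_max_right _ _)⟩
        have := min_le_right δ₁ δ₂
        linarith
      · rw [restr S W₂ (le_max_right _ _) (fun s hs => (hS1 s hs).2)]
        have := min_le_right η₁ η₂
        nlinarith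
  · intro P hP
    rw [lindelof_iff]
    exact criterion hP le_rfl (by norm_num)
  · intro P hP θ hθ hθ1 H ε hε
    obtain ⟨c1, c2⟩ := criterion hP hθ hθ1
    have hs : Small θ := H.elim c1.2 c2.2
    exact Pool.Agent.K7.H52.SP.line_of_small hθ hθ1 ((small_iff hθ hθ1).1 hs) hε

end Pool.Agent.Results.MP_4e5e8a_nt.SpeiserCriterion
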